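import Pool.Agent.H27.HB.TD

set_option autoImplicit false

namespace Pool.Agent.H73.HB
open MeasureTheory Set Filter Topology Pool.Agent.H80.HS Pool.Agent.H93.HQ Pool.Agent.H27.HB
open scoped ContDiff ENNReal

/-! ### the group law and gauge balls -/

lemma kol_mul_neg_left {n : ℕ} (z h : H n) : mul (-z) (mul z h) = h := by
  refine Prod.ext ?_ (Prod.ext ?_ ?_)
  · simp [mul]
  · simp [mul]
  · simp only [mul, Prod.fst_neg, Prod.snd_neg, inner_neg_left, inner_add_right]
    rw [real_inner_comm z.1 z.2.1]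
    ring

lemma kol_mul_neg_right {n : ℕ} (z y : H n) : mul z (mul (-z) y) = y := by
  have := kol_mul_neg_left (-z) y
  rwa [neg_neg] at this

lemma kol_meas {n : ℕ} (R : ℝ) : MeasurableSet {z : H n | N z ≤ R} :=
  (isClosed_le continuous_N continuous_const).measurableSet

lemma kol_compact {n : ℕ} (R : ℝ) : IsCompact {z : H n | N z ≤ R} := by
  refine Metric.isCompact_of_isClosed_isBounded (isClosed_le continuous_N continuous_const) ?_
  rw [isBounded_iff_forall_norm_le]
  refine ⟨max (max R R) (R ^ 2), fun z hz => ?_⟩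
  have hz' : N z ≤ R := hz
  have h0 : 0 ≤ N z := N_nonneg z
  have h1 : ‖z.1‖ ≤ mz z := by
    unfold mz
    refine Real.le_sqrt_of_sq_le ?_
    unfold Pool.Agent.H93.HQ.sq
    nlinarith [sq_nonneg ‖z.2.1‖]
  have h2 : ‖z.2.1‖ ≤ mz z := by
    unfold mz
    refine Real.le_sqrt_of_sq_le ?_
    unfold Pool.Agent.H93.HQ.sq
    nlinarith [sq_nonneg ‖z.1‖]
  have h3 := mz_le_N z
  have h4 : |z.2.2| ≤ N z ^ 2 := by
    refine abs_le_of_sq_le_sq ?_ (by positivity)
    have h5 : (N z ^ 2) ^ 2 = N z ^ 4 := by ring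
    rw [h5, N_pow_four']
    nlinarith [sq_nonneg (Pool.Agent.H93.HQ.sq z)]
  have h6 : N z ^ 2 ≤ R ^ 2 := by nlinarith
  rw [Prod.norm_def, Prod.norm_def, Real.norm_eq_abs]
  refine max_le ?_ (max_le ?_ ?_)
  · exact (h1.trans (h3.trans hz')).trans ((le_max_left _ _).trans (le_max_left _ _))
  · exact (h2.trans (h3.trans hz')).trans ((le_max_left _ _).trans (le_max_left _ _))
  · exact (h4.trans h6).trans (le_max_right _ _)

/-- Balls around points of a ball. -/
lemma kol_ball {n : ℕ} (R : ℝ) : ∃ R' : ℝ, ∀ z h : H n, N z ≤ R → N h ≤ 1 →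
    N (mul z h) ≤ R' := by
  have hK : IsCompact ({z : H n | N z ≤ R} ×ˢ {z : H n | N z ≤ 1}) :=
    (kol_compact R).prod (kol_compact 1)
  have hc : Continuous (fun q : H n × H n => N (mul q.1 q.2)) :=
    continuous_N.comp continuous_mul'
  obtain ⟨C, hC⟩ := hK.exists_bound_of_continuousOn hc.continuousOn
  refine ⟨C, fun z h hz hh => ?_⟩
  have := hC (z, h) ⟨hz, hh⟩
  exact (le_abs_self _).trans this

/-- Left translations preserve the measure. -/
lemma kol_mp (hTR : U_TR) {n : ℕ} (z : H n) :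
    Measure.map (fun h : H n => mul z h) volume = volume := by
  have hm : Measurable (fun h : H n => mul z h) := (continuous_mul z).measurable
  refine Measure.ext fun s hs => ?_
  rw [Measure.map_apply hm hs]
  have h1 := (hTR n (s.indicator 1) z (measurable_one.indicator hs)).1
  have h2 : (fun x : H n => (s.indicator (1 : H n → ℝ≥0∞)) (mul z x)) =
      ((fun h : H n => mul z h) ⁻¹' s).indicator 1 := by
    funext x
    rfl
  rw [h2, lintegral_indicator_one (hm hs), lintegral_indicator_one hs] at h1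
  exact h1

lemma kol_change (hTR : U_TR) {n : ℕ} (z : H n) (ρ f : H n → ℝ) (hρ : Continuous ρ)
    (hf : Continuous f) :
    ∫ h, ρ h * f (mul z h) = ∫ y, ρ (mul (-z) y) * f y := by
  have hc : Continuous (fun y : H n => ρ (mul (-z) y) * f y) :=
    (hρ.comp (continuous_mul (-z))).mul hf
  have h1 := integral_map (μ := (volume : Measure (H n))) (φ := fun h : H n => mul z h)
    (continuous_mul z).measurable.aemeasurable (f := fun y : H n => ρ (mul (-z) y) * f y)
    hc.aestronglyMeasurable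
  rw [kol_mp hTR z] at h1
  rw [h1]
  simp only [kol_mul_neg_left]

/-! ### the mollifier -/

/-- A continuous mollifier. -/
lemma kol_rho (n : ℕ) (m : ℕ) : ∃ ρ : H n → ℝ, Continuous ρ ∧ (∀ z, 0 ≤ ρ z) ∧
    (∀ z, 1 / ((m : ℝ) + 1) < N z → ρ z = 0) ∧ ∫ z, ρ z = 1 := by
  have hm : (0 : ℝ) < (m : ℝ) + 1 := by positivity
  let g : H n → ℝ := fun z => max 0 (1 - ((m : ℝ) + 1) * N z)
  have hg : Continuous g := by
    have := continuous_N (n := n)
    fun_prop
  have hg0 : ∀ z, 0 ≤ g z := fun z => le_max_left _ _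
  have hgs : ∀ z, 1 / ((m : ℝ) + 1) < N z → g z = 0 := by
    intro z hz
    refine max_eq_left ?_
    rw [div_lt_iff₀ hm] at hz
    linarith
  have hcs : HasCompactSupport g := by
    refine HasCompactSupport.intro (kol_compact (n := n) (1 / ((m : ℝ) + 1))) ?_
    intro x hx
    exact hgs x (not_le.1 hx)
  have hN0 : N (0 : H n) = 0 := by simp [N, N4, Pool.Agent.H93.HQ.sq]
  have h0 : g 0 ≠ 0 := by
    simp only [g, hN0]
    norm_num
  have hpos : 0 < ∫ z, g z := hg.integral_pos_of_hasCompactSupport_nonneg_nonzero hcs hg0 h0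
  refine ⟨fun z => (∫ w, g w)⁻¹ * g z, continuous_const.mul hg, fun z => ?_, fun z hz => ?_, ?_⟩
  · exact mul_nonneg (inv_nonneg.2 hpos.le) (hg0 z)
  · simp [hgs z hz]
  · rw [integral_const_mul, inv_mul_cancel₀ hpos.ne']

/-- Mollification is close to the identity. -/
lemma kol_approx {n : ℕ} (ρ f : H n → ℝ) (hρ : Continuous ρ) (hρ0 : ∀ z, 0 ≤ ρ z)
    (hρs : ∀ z, 1 < N z → ρ z = 0) (hρ1 : ∫ z, ρ z = 1) (hf : Continuous f) (R : ℝ)
    (E : ℝ≥0∞)
    (hE : ∀ h : H n, ρ h ≠ 0 → ∫⁻ z in {z | N z ≤ R}, ‖f (mul z h) - f z‖ₑ ≤ E) :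
    ∫⁻ z in {z | N z ≤ R}, ‖(∫ h, ρ h * f (mul z h)) - f z‖ₑ ≤ E := by
  have hcs : ∀ g : H n → ℝ, HasCompactSupport (fun h => ρ h * g h) := by
    intro g
    refine HasCompactSupport.intro (kol_compact (n := n) 1) ?_
    intro x hx
    rw [hρs x (not_le.1 hx), zero_mul]
  have hi : Integrable ρ := by
    refine hρ.integrable_of_hasCompactSupport ?_
    refine HasCompactSupport.intro (kol_compact (n := n) 1) ?_
    intro x hx
    exact hρs x (not_le.1 hx)
  have hfz : ∀ z : H n, Continuous (fun h => f (mul z h)) := fun z =>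
    hf.comp (continuous_mul z)
  have h1 : ∀ z : H n, ‖(∫ h, ρ h * f (mul z h)) - f z‖ₑ ≤
      ∫⁻ h, ENNReal.ofReal (ρ h) * ‖f (mul z h) - f z‖ₑ := by
    intro z
    have hi1 : Integrable (fun h => ρ h * f (mul z h)) :=
      (hρ.mul (hfz z)).integrable_of_hasCompactSupport (hcs _)
    have hi2 : Integrable (fun h => ρ h * f z) := hi.mul_const _
    have h2 : (∫ h, ρ h * f (mul z h)) - f z = ∫ h, ρ h * (f (mul z h) - f z) := by
      have h3 : f z = ∫ h, ρ h * f z := by rw [integral_mul_const, hρ1, one_mul]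
      conv_lhs => rw [h3]
      rw [← integral_sub hi1 hi2]
      refine integral_congr_ae (Eventually.of_forall fun h => ?_)
      simp only
      ring
    rw [h2]
    refine (enorm_integral_le_lintegral_enorm _).trans (le_of_eq ?_)
    refine lintegral_congr fun h => ?_
    rw [enorm_mul, Real.enorm_of_nonneg (hρ0 h)]
  have hmeas : Measurable (fun q : H n × H n =>
      ENNReal.ofReal (ρ q.2) * ‖f (mul q.1 q.2) - f q.1‖ₑ) := by
    have hc : Continuous (fun q : H n × H n => f (mul q.1 q.2) - f q.1) :=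
      (hf.comp continuous_mul').sub (hf.comp continuous_fst)
    exact ((hρ.comp continuous_snd).measurable.ennreal_ofReal).mul hc.measurable.enorm
  calc ∫⁻ z in {z | N z ≤ R}, ‖(∫ h, ρ h * f (mul z h)) - f z‖ₑ
      ≤ ∫⁻ z in {z | N z ≤ R}, ∫⁻ h, ENNReal.ofReal (ρ h) * ‖f (mul z h) - f z‖ₑ :=
        lintegral_mono fun z => h1 z
    _ = ∫⁻ h, ∫⁻ z in {z | N z ≤ R}, ENNReal.ofReal (ρ h) * ‖f (mul z h) - f z‖ₑ := by
        rw [lintegral_lintegral_swap]
        exact hmeas.aemeasurable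
    _ ≤ ∫⁻ h, ENNReal.ofReal (ρ h) * E := by
        refine lintegral_mono fun h => ?_
        simp only
        rw [lintegral_const_mul' _ _ ENNReal.ofReal_ne_top]
        by_cases hh : ρ h = 0
        · simp [hh]
        · gcongr
          exact hE h hh
    _ = E := by
        rw [lintegral_mul_const _ hρ.measurable.ennreal_ofReal,
          ← ofReal_integral_eq_lintegral_ofReal hi (Eventually.of_forall hρ0), hρ1]
        simp

/-- A bound for integrals against functions supported in a ball. -/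
lemma kol_bound {n : ℕ} (R M : ℝ) (Φ f : H n → ℝ) (hf : Continuous f)
    (hΦ : ∀ y, N y ≤ R → |Φ y| ≤ M) (hΦ0 : ∀ y, R < N y → Φ y = 0) :
    |∫ y, Φ y * f y| ≤ M * ∫ y in {y | N y ≤ R}, |f y| := by
  have hi : IntegrableOn (fun y : H n => |f y|) {y | N y ≤ R} :=
    hf.abs.continuousOn.integrableOn_compact (kol_compact R)
  have h1 := norm_integral_le_of_norm_le (μ := (volume : Measure (H n)))
    (f := fun y => Φ y * f y) (g := ({y : H n | N y ≤ R}).indicator (fun y => M * |f y|))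
    ((integrable_indicator_iff (kol_meas R)).2 (hi.const_mul M))
    (Eventually.of_forall fun y => by
      by_cases hy : N y ≤ R
      · rw [indicator_of_mem (show y ∈ {y : H n | N y ≤ R} from hy), norm_mul,
          Real.norm_eq_abs, Real.norm_eq_abs]
        exact mul_le_mul_of_nonneg_right (hΦ y hy) (abs_nonneg _)
      · rw [indicator_of_notMem (show y ∉ {y : H n | N y ≤ R} from hy),
          hΦ0 y (not_le.1 hy), zero_mul, norm_zero])
  rw [integral_indicator (kol_meas R), integral_const_mul] at h1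
  exact h1

lemma kol_supp {n : ℕ} (ρ : H n → ℝ) (hρs : ∀ z, 1 < N z → ρ z = 0) (R R' : ℝ)
    (hR' : ∀ z h : H n, N z ≤ R → N h ≤ 1 → N (mul z h) ≤ R') (z y : H n) (hz : N z ≤ R)
    (hy : R' < N y) : ρ (mul (-z) y) = 0 := by
  by_contra hne
  have h1 : N (mul (-z) y) ≤ 1 := by
    by_contra h2
    exact hne (hρs _ (not_le.1 h2))
  have h3 := hR' z (mul (-z) y) hz h1
  rw [kol_mul_neg_right] at h3
  linarith

/-- Uniform bounds for the mollifications. -/
lemma kol_unif {n : ℕ} (f : ℕ → H n → ℝ) (hf : ∀ k, Continuous (f k))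
    (hb : ∀ R : ℝ, ∃ C : ℝ, ∀ k, ∫ z in {z | N z ≤ R}, |f k z| ≤ C)
    (ρ : ℕ → H n → ℝ) (hρ : ∀ m, Continuous (ρ m))
    (hρs : ∀ m z, 1 < N z → ρ m z = 0) (m : ℕ) (R : ℝ) :
    ∃ B : ℝ, ∀ k z, N z ≤ R → |∫ y, ρ m (mul (-z) y) * f k y| ≤ B := by
  have hcs : HasCompactSupport (ρ m) := by
    refine HasCompactSupport.intro (kol_compact (n := n) 1) ?_
    intro x hx
    exact hρs m x (not_le.1 hx)
  obtain ⟨M, hM⟩ := (hρ m).bounded_above_of_compact_support hcs
  obtain ⟨R', hR'⟩ := kol_ball (n := n) R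
  obtain ⟨C, hC⟩ := hb R'
  refine ⟨M * C, fun k z hz => ?_⟩
  have h1 := kol_bound R' M (fun y => ρ m (mul (-z) y)) (f k) (hf k) (fun y _ => hM _)
    (fun y hy => kol_supp (ρ m) (hρs m) R R' hR' z y hz hy)
  have hM0 : 0 ≤ M := (norm_nonneg _).trans (hM 0)
  exact h1.trans (mul_le_mul_of_nonneg_left (hC k) hM0)

/-- The sequences of mollifications converge along a subsequence. -/
lemma kol_diag {n : ℕ} (f : ℕ → H n → ℝ) (hf : ∀ k, Continuous (f k))
    (hb : ∀ R : ℝ, ∃ C : ℝ, ∀ k, ∫ z in {z | N z ≤ R}, |f k z| ≤ C)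
    (ρ : ℕ → H n → ℝ) (hρ : ∀ m, Continuous (ρ m))
    (hρs : ∀ m z, 1 < N z → ρ m z = 0) :
    ∃ σ : ℕ → ℕ, StrictMono σ ∧ ∀ (m : ℕ) (z : H n), ∃ l : ℝ,
      Tendsto (fun k => ∫ y, ρ m (mul (-z) y) * f (σ k) y) atTop (𝓝 l) := by
  have hsup : ∀ (R : ℝ) (R' : ℝ), (∀ z h : H n, N z ≤ R → N h ≤ 1 → N (mul z h) ≤ R') →
      ∀ (m : ℕ) (z y : H n), N z ≤ R → R' < N y → ρ m (mul (-z) y) = 0 :=
    fun R R' hR' m z y hz hy => kol_supp (ρ m) (hρs m) R R' hR' z y hz hy
  have hbd : ∀ (m : ℕ) (z : H n), ∃ B : ℝ, ∀ k,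
      |∫ y, ρ m (mul (-z) y) * f k y| ≤ B := by
    intro m z
    obtain ⟨B, hB⟩ := kol_unif f hf hb ρ hρ hρs m (N z)
    exact ⟨B, fun k => hB k z le_rfl⟩
  -- equicontinuity
  have heq : ∀ (m : ℕ) (z : H n) (ε : ℝ), 0 < ε → ∀ᶠ z' in 𝓝 z, ∀ k,
      |(∫ y, ρ m (mul (-z') y) * f k y) - ∫ y, ρ m (mul (-z) y) * f k y| ≤ ε := by
    intro m z ε hε
    obtain ⟨R', hR'⟩ := kol_ball (n := n) (N z + 1)
    obtain ⟨C, hC⟩ := hb R'
    have hC0 : 0 ≤ C := le_trans (integral_nonneg fun y => abs_nonneg _) (hC 0)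
    have hε' : 0 < ε / (C + 1) := by positivity
    have hc : Continuous (fun q : H n × H n =>
        ρ m (mul (-q.1) q.2) - ρ m (mul (-z) q.2)) := by
      refine Continuous.sub ?_ ?_
      · exact (hρ m).comp (continuous_mul'.comp
          ((continuous_fst.neg).prodMk continuous_snd))
      · exact (hρ m).comp ((continuous_mul (-z)).comp continuous_snd)
    have h1 : ∀ᶠ z' in 𝓝 z, ∀ y ∈ {y : H n | N y ≤ R'},
        |ρ m (mul (-z') y) - ρ m (mul (-z) y)| ≤ ε / (C + 1) := by
      refine (kol_compact R').eventually_forall_of_forall_eventually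
        (P := fun z' y => |ρ m (mul (-z') y) - ρ m (mul (-z) y)| ≤ ε / (C + 1)) ?_
      intro y _
      have h2 : Tendsto (fun q : H n × H n =>
          |ρ m (mul (-q.1) q.2) - ρ m (mul (-z) q.2)|) (𝓝 (z, y)) (𝓝 0) := by
        have h3 := hc.abs.tendsto (z, y)
        simpa using h3
      exact h2.eventually_le_const hε'
    have h4 : ∀ᶠ z' in 𝓝 z, N z' ≤ N z + 1 := by
      have h5 : Tendsto (fun z' : H n => N z') (𝓝 z) (𝓝 (N z)) := continuous_N.tendsto z
      exact h5.eventually_le_const (by linarith)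
    filter_upwards [h1, h4] with z' h6 h7 k
    have hint : ∀ w : H n, N w ≤ N z + 1 →
        Integrable (fun y => ρ m (mul (-w) y) * f k y) := by
      intro w hw
      refine Continuous.integrable_of_hasCompactSupport ?_ ?_
      · exact ((hρ m).comp (continuous_mul (-w))).mul (hf k)
      · refine HasCompactSupport.intro (kol_compact (n := n) R') ?_
        intro x hx
        rw [hsup _ _ hR' m w x hw (not_le.1 hx), zero_mul]
    have h8 : (∫ y, ρ m (mul (-z') y) * f k y) - ∫ y, ρ m (mul (-z) y) * f k y =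
        ∫ y, (ρ m (mul (-z') y) - ρ m (mul (-z) y)) * f k y := by
      rw [← integral_sub (hint z' h7) (hint z (by linarith))]
      refine integral_congr_ae (Eventually.of_forall fun y => ?_)
      simp only
      ring
    rw [h8]
    refine (kol_bound R' (ε / (C + 1)) _ (f k) (hf k) (fun y hy => h6 y hy) ?_).trans ?_
    · intro y hy
      rw [hsup _ _ hR' m z' y h7 hy, hsup _ _ hR' m z y (by linarith) hy, sub_zero]
    · calc ε / (C + 1) * ∫ y in {y | N y ≤ R'}, |f k y| ≤ ε / (C + 1) * (C + 1) := by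
            refine mul_le_mul_of_nonneg_left ?_ hε'.le
            linarith [hC k]
        _ = ε := by field_simp
  -- diagonal sequence
  choose B hB using hbd
  let d : ℕ → H n := TopologicalSpace.denseSeq (H n)
  have hd : DenseRange d := TopologicalSpace.denseRange_denseSeq (H n)
  have hK : IsCompact (Set.univ.pi fun q : ℕ × ℕ =>
      Set.Icc (-(B q.1 (d q.2))) (B q.1 (d q.2))) :=
    isCompact_univ_pi fun q => isCompact_Icc
  obtain ⟨a, -, σ, hσ, hlim⟩ := hK.tendsto_subseq
    (x := fun k (q : ℕ × ℕ) => ∫ y, ρ q.1 (mul (-(d q.2)) y) * f k y) (by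
      intro k q _
      exact abs_le.1 (hB q.1 (d q.2) k))
  refine ⟨σ, hσ, fun m z => ?_⟩
  refine cauchySeq_tendsto_of_complete ?_
  rw [Metric.cauchySeq_iff]
  intro ε hε
  have h1 := heq m z (ε / 4) (by positivity)
  obtain ⟨z', hz', i, rfl⟩ : ∃ z', (∀ k,
      |(∫ y, ρ m (mul (-z') y) * f k y) - ∫ y, ρ m (mul (-z) y) * f k y| ≤ ε / 4) ∧
      ∃ i, d i = z' := by
    have h2 := hd.exists_mem_open (isOpen_interior (s := {z' : H n | ∀ k,
      |(∫ y, ρ m (mul (-z') y) * f k y) - ∫ y, ρ m (mul (-z) y) * f k y| ≤ ε / 4}))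
      ⟨z, mem_interior_iff_mem_nhds.2 h1⟩
    obtain ⟨i, hi⟩ := h2
    exact ⟨d i, interior_subset hi, i, rfl⟩
  have h3 : Tendsto (fun k => ∫ y, ρ m (mul (-(d i)) y) * f (σ k) y) atTop
      (𝓝 (a (m, i))) := by
    have h4 := (tendsto_pi_nhds.1 hlim) (m, i)
    exact h4
  have h5 := h3.cauchySeq
  rw [Metric.cauchySeq_iff] at h5
  obtain ⟨K, hK'⟩ := h5 (ε / 4) (by positivity)
  refine ⟨K, fun k hk l hl => ?_⟩
  have h6 := hK' k hk l hl
  rw [Real.dist_eq] at h6 ⊢
  have h7 := abs_lt.1 h6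
  have h8 := abs_le.1 (hz' (σ k))
  have h9 := abs_le.1 (hz' (σ l))
  rw [abs_lt]
  constructor <;> linarith [h7.1, h7.2, h8.1, h8.2, h9.1, h9.2]

/-- KOL: compactness from equicontinuity of right translations. -/
theorem pf_KOL (hTR : U_TR) : T_KOL := by
  intro n f hf hb he
  choose ρ hρ hρ0 hρs hρ1 using kol_rho n
  have hρs1 : ∀ m z, 1 < N z → ρ m z = 0 := by
    intro m z hz
    refine hρs m z (lt_of_le_of_lt ?_ hz)
    rw [div_le_one (by positivity)]
    have : (0 : ℝ) ≤ m := Nat.cast_nonneg m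
    linarith
  obtain ⟨σ, hσ, hlim⟩ := kol_diag f hf hb ρ hρ hρs1
  choose G hG using hlim
  let F : ℕ → ℕ → H n → ℝ := fun m k z => ∫ y, ρ m (mul (-z) y) * f k y
  have hF : ∀ m k z, F m k z = ∫ h, ρ m h * f k (mul z h) := fun m k z =>
    (kol_change hTR z (ρ m) (f k) (hρ m) (hf k)).symm
  have hFm : ∀ m k, Measurable (F m k) := by
    intro m k
    have hc : Continuous (fun q : H n × H n => ρ m (mul (-q.1) q.2) * f k q.2) := by
      refine Continuous.mul ?_ ?_
      · exact (hρ m).comp (continuous_mul'.comp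
          ((continuous_fst.neg).prodMk continuous_snd))
      · exact (hf k).comp continuous_snd
    exact (hc.stronglyMeasurable.integral_prod_right' (ν := (volume : Measure (H n)))).measurable
  have hGm : ∀ m, Measurable (G m) := by
    intro m
    refine measurable_of_tendsto_metrizable (f := fun k => F m (σ k))
      (fun k => hFm m (σ k)) ?_
    rw [tendsto_pi_nhds]
    intro z
    exact hG m z
  have hbd : ∀ (m : ℕ) (R : ℝ), ∃ B : ℝ, ∀ k z, N z ≤ R → |F m k z| ≤ B :=
    kol_unif f hf hb ρ hρ hρs1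
  -- the sequence is Cauchy in `L^1` on every ball
  have hcau : ∀ (R ε : ℝ), 0 < ε → ∃ K : ℕ, ∀ k l : ℕ, K ≤ k → K ≤ l →
      ∫⁻ z in {z | N z ≤ R}, ‖f (σ k) z - f (σ l) z‖ₑ ≤ ENNReal.ofReal ε := by
    intro R ε hε
    obtain ⟨δ, hδ, hδ'⟩ := he R (ε / 4) (by positivity)
    obtain ⟨m, hm⟩ := exists_nat_one_div_lt hδ
    have h1 : ∀ k, ∫⁻ z in {z | N z ≤ R}, ‖F m k z - f k z‖ₑ ≤ ENNReal.ofReal (ε / 4) := by
      intro k
      have h2 := kol_approx (ρ m) (f k) (hρ m) (hρ0 m) (hρs1 m) (hρ1 m) (hf k) R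
        (ENNReal.ofReal (ε / 4)) (by
          intro h hh
          have h3 : N h ≤ δ := by
            by_contra h4
            exact hh (hρs m h (hm.trans (not_le.1 h4)))
          have hc : Continuous (fun z : H n => f k (mul z h) - f k z) :=
            ((hf k).comp (continuous_mul'.comp
              (continuous_id.prodMk continuous_const))).sub (hf k)
          have hi : IntegrableOn (fun z : H n => f k (mul z h) - f k z) {z | N z ≤ R} :=
            hc.continuousOn.integrableOn_compact (kol_compact R)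
          rw [← ofReal_integral_norm_eq_lintegral_enorm hi]
          exact ENNReal.ofReal_le_ofReal (hδ' k h h3))
      simp only [hF]
      exact h2
    obtain ⟨B, hB⟩ := hbd m R
    have hvol : volume {z : H n | N z ≤ R} ≠ ⊤ := (kol_compact R).measure_lt_top.ne
    have h5 : Tendsto (fun k => ∫⁻ z in {z | N z ≤ R}, ‖F m (σ k) z - G m z‖ₑ) atTop
        (𝓝 (∫⁻ z : H n in {z | N z ≤ R}, (0 : ℝ≥0∞))) := by
      refine tendsto_lintegral_of_dominated_convergence
        (fun _ => ENNReal.ofReal (2 * B)) ?_ ?_ ?_ ?_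
      · intro k
        exact ((hFm m (σ k)).sub (hGm m)).enorm
      · intro k
        refine (ae_restrict_iff' (kol_meas R)).2 (Eventually.of_forall fun z hz => ?_)
        have hz' : N z ≤ R := hz
        have h6 := hB (σ k) z hz'
        have h7 : |G m z| ≤ B :=
          le_of_tendsto (hG m z).abs (Eventually.of_forall fun j => hB (σ j) z hz')
        simp only
        rw [← ofReal_norm]
        refine ENNReal.ofReal_le_ofReal ?_
        rw [Real.norm_eq_abs]
        exact (abs_sub _ _).trans (by linarith)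
      · rw [setLIntegral_const]
        exact ENNReal.mul_ne_top ENNReal.ofReal_ne_top hvol
      · refine Eventually.of_forall fun z => ?_
        have h8 : Tendsto (fun k => F m (σ k) z - G m z) atTop (𝓝 (G m z - G m z)) :=
          (hG m z).sub tendsto_const_nhds
        rw [sub_self] at h8
        have h9 := h8.enorm
        simpa using h9
    rw [lintegral_zero] at h5
    have hε4 : (0 : ℝ≥0∞) < ENNReal.ofReal (ε / 4) := ENNReal.ofReal_pos.2 (by positivity)
    obtain ⟨K, hK⟩ := eventually_atTop.1 ((tendsto_order.1 h5).2 _ hε4)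
    refine ⟨K, fun k l hk hl => ?_⟩
    have hm1 : ∀ j, Measurable (fun z => ‖F m j z - f j z‖ₑ) := fun j =>
      ((hFm m j).sub (hf j).measurable).enorm
    have hm2 : ∀ j, Measurable (fun z => ‖F m j z - G m z‖ₑ) := fun j =>
      ((hFm m j).sub (hGm m)).enorm
    calc ∫⁻ z in {z | N z ≤ R}, ‖f (σ k) z - f (σ l) z‖ₑ
        ≤ ∫⁻ z in {z | N z ≤ R}, ((‖F m (σ k) z - f (σ k) z‖ₑ + ‖F m (σ k) z - G m z‖ₑ) +
            (‖F m (σ l) z - f (σ l) z‖ₑ + ‖F m (σ l) z - G m z‖ₑ)) := by
          refine lintegral_mono fun z => ?_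
          have e1 : f (σ k) z - f (σ l) z =
              (-(F m (σ k) z - f (σ k) z) + (F m (σ k) z - G m z)) +
              ((F m (σ l) z - f (σ l) z) + -(F m (σ l) z - G m z)) := by ring
          simp only
          rw [e1]
          refine (enorm_add_le _ _).trans (add_le_add ?_ ?_)
          · refine (enorm_add_le _ _).trans ?_
            rw [enorm_neg]
          · refine (enorm_add_le _ _).trans ?_
            rw [enorm_neg]
      _ = ((∫⁻ z in {z | N z ≤ R}, ‖F m (σ k) z - f (σ k) z‖ₑ) +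
            ∫⁻ z in {z | N z ≤ R}, ‖F m (σ k) z - G m z‖ₑ) +
          ((∫⁻ z in {z | N z ≤ R}, ‖F m (σ l) z - f (σ l) z‖ₑ) +
            ∫⁻ z in {z | N z ≤ R}, ‖F m (σ l) z - G m z‖ₑ) := by
          rw [← lintegral_add_left (hm1 (σ k)), ← lintegral_add_left (hm1 (σ l))]
          exact lintegral_add_left ((hm1 (σ k)).add (hm2 (σ k))) _
      _ ≤ (ENNReal.ofReal (ε / 4) + ENNReal.ofReal (ε / 4)) +
          (ENNReal.ofReal (ε / 4) + ENNReal.ofReal (ε / 4)) :=
          add_le_add (add_le_add (h1 _) (hK k hk).le) (add_le_add (h1 _) (hK l hl).le)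
      _ = ENNReal.ofReal ε := by
          have hq : 0 ≤ ε / 4 := by positivity
          rw [← ENNReal.ofReal_add hq hq, ← ENNReal.ofReal_add (by positivity) (by positivity)]
          congr 1
          ring
  -- a rapidly converging subsequence
  obtain ⟨φ, hφ, hφ'⟩ := extraction_forall_of_eventually'
    (P := fun j K => ∀ k l : ℕ, K ≤ k → K ≤ l →
      ∫⁻ z in {z | N z ≤ (j : ℝ)}, ‖f (σ k) z - f (σ l) z‖ₑ ≤
        ENNReal.ofReal ((1 / 2) ^ j)) (by
      intro j
      obtain ⟨K, hK⟩ := hcau j ((1 / 2) ^ j) (by positivity)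
      exact ⟨K, fun k hk a b ha hb => hK a b (hk.le.trans ha) (hk.le.trans hb)⟩)
  have hloc : ∀ R : ℕ, ∀ᵐ z ∂(volume.restrict {z : H n | N z ≤ (R : ℝ)}),
      ∃ l : ℝ, Tendsto (fun j => f (σ (φ (j + R))) z) atTop (𝓝 l) := by
    intro R
    refine Lp.ae_tendsto_of_cauchy_eLpNorm (p := 1)
      (B := fun j => ENNReal.ofReal (2 * (1 / 2) ^ j))
      (fun j => (hf _).aestronglyMeasurable) le_rfl ?_ ?_
    · refine Summable.tsum_ofReal_ne_top ?_
      exact (summable_geometric_of_lt_one (by norm_num) (by norm_num)).mul_left 2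
    · intro M a b ha hb'
      rw [eLpNorm_one_eq_lintegral_enorm]
      have h1 : ∫⁻ z in {z | N z ≤ (R : ℝ)},
          ‖(f (σ (φ (a + R))) - f (σ (φ (b + R)))) z‖ₑ ≤
          ∫⁻ z in {z | N z ≤ ((M + R : ℕ) : ℝ)},
            ‖f (σ (φ (a + R))) z - f (σ (φ (b + R))) z‖ₑ := by
        refine lintegral_mono_set ?_
        intro z hz
        have hz' : N z ≤ (R : ℝ) := hz
        refine hz'.trans ?_
        push_cast
        have : (0 : ℝ) ≤ M := Nat.cast_nonneg M
        linarith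
      refine (h1.trans (hφ' (M + R) _ _ (hφ.monotone (by omega))
        (hφ.monotone (by omega)))).trans_lt ?_
      rw [ENNReal.ofReal_lt_ofReal_iff (by positivity)]
      have h2 : ((1 : ℝ) / 2) ^ (M + R) ≤ (1 / 2) ^ M :=
        pow_le_pow_of_le_one (by norm_num) (by norm_num) (by omega)
      have h3 : (0 : ℝ) < (1 / 2) ^ M := by positivity
      linarith
  have hae : ∀ᵐ z : H n, ∃ l : ℝ, Tendsto (fun j => f (σ (φ j)) z) atTop (𝓝 l) := by
    have h1 : ∀ᵐ z : H n, ∀ R : ℕ, N z ≤ (R : ℝ) →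
        ∃ l : ℝ, Tendsto (fun j => f (σ (φ (j + R))) z) atTop (𝓝 l) := by
      rw [ae_all_iff]
      intro R
      exact (ae_restrict_iff' (kol_meas (R : ℝ))).1 (hloc R)
    filter_upwards [h1] with z hz
    obtain ⟨R, hR⟩ := exists_nat_ge (N z)
    obtain ⟨l, hl⟩ := hz R hR
    exact ⟨l, (tendsto_add_atTop_iff_nat (f := fun j => f (σ (φ j)) z) R).1 hl⟩
  obtain ⟨u, hu, hu'⟩ := measurable_limit_of_tendsto_metrizable_ae
    (fun j => (hf (σ (φ j))).measurable.aemeasurable) hae
  exact ⟨fun j => σ (φ j), u, hσ.comp hφ, hu, hu'⟩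

end Pool.Agent.H73.HB
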